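import Mathlib

set_option autoImplicit false

namespace Pool.Agent.Results.MP_ddaf7c_pr.Grid

open Finset SimpleGraph Equiv

section defs
variable {V : Type} [Fintype V] {m : ℕ} (ed : Fin m → Sym2 V)

/-- The edges indexed by `S` form a spanning tree. -/
def IsST (S : Finset (Fin m)) : Prop := (fromEdgeSet (ed '' S)).IsTree

/-- Deleting some edge of `S` leaves a component with exactly half of the vertices. -/
def Split (S : Finset (Fin m)) : Prop :=
  ∃ e ∈ S, ∃ v, 2 * {u | (fromEdgeSet (ed '' (S.erase e))).Reachable v u}.ncard = Fintype.card V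

/-- The probability that the uniform spanning tree is splittable. -/
noncomputable def pUST : ℚ := ({S | IsST ed S ∧ Split ed S}.ncard : ℚ) / {S | IsST ed S}.ncard

/-- The probability, over a uniformly random ranking `w` of the edges, that the spanning tree of
least total weight is splittable. -/
noncomputable def pMST : ℚ := ({w : Perm (Fin m) | ∃ S, IsST ed S ∧ Split ed S ∧
  ∀ T, IsST ed T → ∑ e ∈ S, (w e : ℕ) ≤ ∑ e ∈ T, (w e : ℕ)}.ncard : ℚ) / m.factorial

end defs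

theorem argmax {m : ℕ} (P : Finset (Perm (Fin m))) (A : Finset (Fin m))
    (hP : ∀ w ∈ P, ∀ a ∈ A, ∀ b ∈ A, w * swap a b ∈ P) (e : Fin m) (he : e ∈ A) :
    (P.filter fun w => ∀ f ∈ A, w f ≤ w e).card * A.card = P.card := by
  have h1 : ∀ a ∈ A, ∀ b ∈ A, (P.filter fun w => ∀ f ∈ A, w f ≤ w a).card ≤
      (P.filter fun w => ∀ f ∈ A, w f ≤ w b).card := fun a ha b hb => by
    refine card_le_card_of_injOn (· * swap a b) (fun w hw => ?_) (mul_left_injective _).injOn
    obtain ⟨h1, h2⟩ := mem_filter.1 (mem_coe.1 hw)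
    refine mem_coe.2 (mem_filter.2 ⟨hP w h1 a ha b hb, fun f hf => ?_⟩)
    simp only [Perm.mul_apply, swap_apply_right]
    refine h2 _ ?_
    rw [swap_apply_def]
    split_ifs <;> assumption
  have h2 : P = A.biUnion fun a => P.filter fun w => ∀ f ∈ A, w f ≤ w a := by
    ext w
    simp only [mem_biUnion, mem_filter]
    refine ⟨fun h => ?_, fun ⟨_, _, h, _⟩ => h⟩
    obtain ⟨a, ha, h'⟩ := exists_max_image A w ⟨e, he⟩
    exact ⟨a, ha, h, h'⟩
  conv_rhs => rw [h2]
  rw [card_biUnion fun a ha b hb hab => disjoint_left.2 fun w h1 h2 => hab (w.injective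
    (le_antisymm ((mem_filter.1 h2).2 a ha) ((mem_filter.1 h1).2 b hb))),
    sum_congr rfl fun a ha => le_antisymm (h1 a ha e he) (h1 e he a ha), sum_const, smul_eq_mul,
    mul_comm]

/-- First endpoints. -/
def p : Fin 10 → Fin 2 × Fin 4 :=
  ![(0, 0), (0, 1), (0, 2), (1, 0), (1, 1), (1, 2), (0, 0), (0, 1), (0, 2), (0, 3)]

/-- Second endpoints. -/
def q : Fin 10 → Fin 2 × Fin 4 :=
  ![(0, 1), (0, 2), (0, 3), (1, 1), (1, 2), (1, 3), (1, 0), (1, 1), (1, 2), (1, 3)]

/-- The edges of the grid. -/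
def ed (e : Fin 10) : Sym2 (Fin 2 × Fin 4) := s(p e, q e)

/-- Component labels. -/
def lab (S : Finset (Fin 10)) : List (Fin 10) → Fin 2 × Fin 4 → Fin 2 × Fin 4
  | [], x => x
  | e :: l, x => if e ∈ S ∧ lab S l x = lab S l (p e) then lab S l (q e) else lab S l x

theorem lab_reach (S : Finset (Fin 10)) (l : List (Fin 10)) :
    ∀ a b, lab S l a = lab S l b → (fromEdgeSet (ed '' S)).Reachable a b := by
  induction l with
  | nil => rintro a b (rfl : a = b); rfl
  | cons e l ih =>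
    intro a b h
    have he : e ∈ S → (fromEdgeSet (ed '' S)).Reachable (p e) (q e) := fun h => Adj.reachable
      ((fromEdgeSet_adj _).2 ⟨⟨e, h, rfl⟩, by clear * -; revert e; decide⟩)
    simp only [lab] at h
    split_ifs at h with h1 h2 h2
    · exact ih _ _ (h1.2.trans h2.2.symm)
    · exact ((ih _ _ h1.2).trans (he h1.1)).trans (ih _ _ h)
    · exact (((ih _ _ h2.2).trans (he h2.1)).trans (ih _ _ h.symm)).symm
    · exact ih _ _ h

theorem lab_edge (S : Finset (Fin 10)) (l : List (Fin 10)) (f : Fin 10) (hf : f ∈ S) :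
    f ∈ l → lab S l (p f) = lab S l (q f) := by
  induction l with
  | nil => simp
  | cons e l ih =>
    intro h
    rcases List.mem_cons.1 h with rfl | h
    · simp [lab, hf]
    · simp only [lab, ih h]

/-- The final labelling. -/
def L (S : Finset (Fin 10)) := lab S (List.finRange 10)

theorem reach_iff (S : Finset (Fin 10)) (a b : Fin 2 × Fin 4) :
    (fromEdgeSet (ed '' S)).Reachable a b ↔ L S a = L S b := by
  refine ⟨fun h => ?_, lab_reach S _ a b⟩
  rw [reachable_iff_reflTransGen] at h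
  induction h with
  | refl => rfl
  | tail _ h ih =>
    obtain ⟨⟨f, hf, h⟩, -⟩ := (fromEdgeSet_adj _).1 h
    have := lab_edge S _ f hf (List.mem_finRange f)
    rcases Sym2.eq_iff.1 h with ⟨rfl, rfl⟩ | ⟨rfl, rfl⟩
    exacts [ih.trans this, ih.trans this.symm]

theorem ed_inj : Function.Injective ed := by decide

theorem st_iff (S : Finset (Fin 10)) : IsST ed S ↔ S.card = 7 ∧ ∀ v, L S v = L S 0 := by
  have h : (fromEdgeSet (ed '' S)).edgeSet = ed '' S := by
    rw [edgeSet_fromEdgeSet, sdiff_eq_left, Set.disjoint_left]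
    rintro _ ⟨e, -, rfl⟩
    clear * -
    revert e
    simp only [ed, Sym2.mem_diagSet, Sym2.mk_isDiag_iff]
    decide
  rw [IsST, isTree_iff_connected_and_card, h, Nat.card_coe_set_eq,
    Set.ncard_image_of_injective _ ed_inj, Set.ncard_coe_finset, connected_iff_exists_forall_reachable,
    and_comm]
  simp only [reach_iff, Nat.card_eq_fintype_card, Fintype.card_prod, Fintype.card_fin]
  exact and_congr (by omega) ⟨fun ⟨v, h⟩ u => (h u).symm.trans (h 0), fun h => ⟨0, fun u => (h u).symm⟩⟩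

theorem sp_iff (S : Finset (Fin 10)) : Split ed S ↔
    ∃ e ∈ S, ∃ v, (univ.filter fun u => L (S.erase e) v = L (S.erase e) u).card = 4 := by
  simp only [Split, reach_iff, ← coe_filter_univ, Set.ncard_coe_finset, Fintype.card_prod,
    Fintype.card_fin]
  exact exists_congr fun e => and_congr_right fun _ => exists_congr fun v => by omega

instance : DecidablePred (IsST ed) := fun S => decidable_of_iff _ (st_iff S).symm
instance : DecidablePred (Split ed) := fun S => decidable_of_iff _ (sp_iff S).symm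

/-- Codes of the dual edges. -/
def t : Fin 10 → ℕ := ![1, 4, 16, 1, 4, 16, 1, 2, 8, 16]

/-- Non-bridges after one deletion. -/
def A2 (a : Fin 10) : Finset (Fin 10) := univ.filter fun f => t f ≠ t a

/-- Non-bridges after two deletions. -/
def A3 (a b : Fin 10) : Finset (Fin 10) :=
  univ.filter fun f => t f ≠ t a ∧ t f ≠ t b ∧ t a + t b + t f ≠ 7 ∧ t a + t b + t f ≠ 28

/-- Codes of the complements of the splittable spanning trees. -/
def codes : List ℕ := [7, 14, 21, 28, 35, 42, 49, 56, 70, 84, 98, 112, 134, 140, 148, 161, 162, 176,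
  259, 266, 268, 273, 280, 289, 322, 336, 385, 386, 388, 392, 400, 416, 448, 515, 522, 529, 536, 578,
  592, 642, 656, 704, 832, 896]

/-- The good triples. -/
def Good : Finset (Fin 10 × Fin 10 × Fin 10) := univ.filter fun x =>
  x.2.1 ∈ A2 x.1 ∧ x.2.2 ∈ A3 x.1 x.2.1 ∧ ∑ e ∈ {x.1, x.2.1, x.2.2}, 2 ^ (e : ℕ) ∈ codes

theorem mem_Good {a b c : Fin 10} (h : (a, b, c) ∈ Good) :
    b ∈ A2 a ∧ c ∈ A3 a b ∧ ∑ e ∈ {a, b, c}, 2 ^ (e : ℕ) ∈ codes := by
  unfold Good at h
  exact (mem_filter.1 h).2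

theorem c5 : ∀ S : Finset (Fin 10), ∑ e ∈ S, 2 ^ (e : ℕ) ∈ codes → IsST ed Sᶜ ∧ Split ed Sᶜ := by
  decide +kernel
theorem c1 : (univ.filter (IsST ed)).card = 56 := by decide +kernel
theorem c2 : (univ.filter fun S => IsST ed S ∧ Split ed S).card = 44 := by decide +kernel
theorem c3 : ∀ S, IsST ed S → ∀ a, ∀ b ∈ A2 a, ∃ g ∈ Sᶜ, g ∈ A3 a b ∧ ∃ f ∈ Sᶜ.erase g, f ∈ A2 a := by
  decide +kernel
theorem c4 : ∑ x ∈ Good, 362880 / ((A2 x.1).card * (A3 x.1 x.2.1).card) = 2856960 := by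
  decide +kernel

/-- The event attached to a triple. -/
def Ev (x : Fin 10 × Fin 10 × Fin 10) : Finset (Perm (Fin 10)) :=
  ((univ.filter fun w => ∀ f ∈ univ, w f ≤ w x.1).filter fun w => ∀ f ∈ A2 x.1, w f ≤ w x.2.1).filter
    fun w => ∀ f ∈ A3 x.1 x.2.1, w f ≤ w x.2.2

theorem keep {w : Perm (Fin 10)} {A : Finset (Fin 10)} {e a b : Fin 10} (ha : a ∈ A) (hb : b ∈ A)
    (ea : e ≠ a) (eb : e ≠ b) (h : ∀ f ∈ A, w f ≤ w e) :
    ∀ f ∈ A, (w * swap a b) f ≤ (w * swap a b) e := fun f hf => by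
  simp only [Perm.mul_apply, swap_apply_of_ne_of_ne ea eb]
  refine h _ ?_
  rw [swap_apply_def]
  split_ifs <;> assumption

theorem card_Ev (a b c : Fin 10) (hb : b ∈ A2 a) (hc : c ∈ A3 a b) :
    (Ev (a, b, c)).card = 362880 / ((A2 a).card * (A3 a b).card) := by
  have n2 : ∀ f ∈ A2 a, a ≠ f := fun f hf e => (mem_filter.1 hf).2 (e ▸ rfl)
  have s3 : ∀ f ∈ A3 a b, f ∈ A2 a := fun f hf => mem_filter.2 ⟨mem_univ _, (mem_filter.1 hf).2.1⟩
  have n3 : ∀ f ∈ A3 a b, b ≠ f := fun f hf e => (mem_filter.1 hf).2.2.1 (e ▸ rfl)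
  have h1 := argmax univ univ (fun _ _ _ _ _ _ => mem_univ _) a (mem_univ _)
  have h2 := argmax (univ.filter fun w => ∀ f ∈ univ, w f ≤ w a) (A2 a) (fun w hw x hx y hy =>
    mem_filter.2 ⟨mem_univ _, keep (mem_univ _) (mem_univ _) (n2 x hx) (n2 y hy)
      (mem_filter.1 hw).2⟩) b hb
  have h3 := argmax ((univ.filter fun w => ∀ f ∈ univ, w f ≤ w a).filter
    fun w => ∀ f ∈ A2 a, w f ≤ w b) (A3 a b) (fun w hw x hx y hy =>
    mem_filter.2 ⟨mem_filter.2 ⟨mem_univ _, keep (mem_univ _) (mem_univ _) (n2 x (s3 x hx))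
      (n2 y (s3 y hy)) (mem_filter.1 (mem_filter.1 hw).1).2⟩,
      keep (s3 x hx) (s3 y hy) (n3 x hx) (n3 y hy) (mem_filter.1 hw).2⟩) c hc
  rw [card_univ, card_univ, Fintype.card_perm, Fintype.card_fin, ← h2, ← h3,
    show Nat.factorial 10 = 362880 * 10 by norm_num [Nat.factorial], Nat.mul_right_cancel_iff (by norm_num),
    mul_assoc, mul_comm (A3 a b).card] at h1
  exact (Nat.div_eq_of_eq_mul_left (Nat.mul_pos (card_pos.2 ⟨b, hb⟩) (card_pos.2 ⟨c, hc⟩))
    h1.symm).symm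

theorem h1 : (Good.biUnion Ev).card = 2856960 := by
  rw [card_biUnion, ← c4]
  · exact sum_congr rfl fun ⟨a, b, c⟩ hx => card_Ev _ _ _ (mem_Good hx).1 (mem_Good hx).2.1
  · rintro ⟨a, b, c⟩ hx ⟨a', b', c'⟩ hy hne
    obtain ⟨x1, x2, -⟩ := mem_Good (mem_coe.1 hx)
    obtain ⟨y1, y2, -⟩ := mem_Good (mem_coe.1 hy)
    refine disjoint_left.2 fun w h h' => hne ?_
    simp only [Ev, mem_filter, mem_univ, true_and, forall_const] at h h'
    obtain rfl : a = a' := w.injective (le_antisymm (h'.1.1 a) (h.1.1 a'))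
    obtain rfl : b = b' := w.injective (le_antisymm (h'.1.2 b x1) (h.1.2 b' y1))
    obtain rfl : c = c' := w.injective (le_antisymm (h'.2 c x2) (h.2 c' y2))
    rfl

theorem h2 (a b c : Fin 10) (hx : (a, b, c) ∈ Good) (w : Perm (Fin 10)) (h : w ∈ Ev (a, b, c)) :
    ∃ S, IsST ed S ∧ Split ed S ∧
    ∀ T, IsST ed T → ∑ e ∈ S, (w e : ℕ) ≤ ∑ e ∈ T, (w e : ℕ) := by
  obtain ⟨x1, x2, x3⟩ := mem_Good hx
  simp only [Ev, mem_filter, mem_univ, true_and, forall_const] at h
  refine ⟨{a, b, c}ᶜ, (c5 _ x3).1, (c5 _ x3).2, fun T hT => ?_⟩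
  obtain ⟨g, g1, g2, f, f1, f2⟩ := c3 T hT a b x1
  have e1 := sum_add_sum_compl T fun e => (w e : ℕ)
  have e2 := sum_add_sum_compl {a, b, c} fun e => (w e : ℕ)
  have ab : a ≠ b := fun e => (mem_filter.1 x1).2 (e ▸ rfl)
  have ac : a ≠ c := fun e => (mem_filter.1 x2).2.1 (e ▸ rfl)
  have bc : b ≠ c := fun e => (mem_filter.1 x2).2.2.1 (e ▸ rfl)
  rw [sum_insert (by simp [ab, ac]), sum_pair bc] at e2
  rw [← add_sum_erase _ _ g1, ← add_sum_erase _ _ f1] at e1
  have e3 := sum_le_card_nsmul ((Tᶜ.erase g).erase f) (fun e => (w e : ℕ)) (w a)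
    fun e _ => h.1.1 e
  rw [card_erase_of_mem f1, card_erase_of_mem g1, card_compl, ((st_iff T).1 hT).1] at e3
  have e4 : (w f : ℕ) ≤ w b := h.1.2 f f2
  have e5 : (w g : ℕ) ≤ w c := h.2 g g2
  simp only [Fintype.card_fin, smul_eq_mul] at e3
  omega

theorem result : ∃ ed : Fin 10 → Sym2 (Fin 2 × Fin 4), Function.Injective ed ∧
    Set.range ed = (pathGraph 2 □ pathGraph 4).edgeSet ∧ pUST ed < pMST ed := by
  classical
  refine ⟨ed, ed_inj, ?_, ?_⟩
  · ext x
    induction x using Sym2.ind with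
    | _ a b =>
      simp only [Set.mem_range, mem_edgeSet, boxProd_adj, pathGraph_adj]
      revert a b
      decide
  rw [pUST, pMST, ← coe_filter_univ, ← coe_filter_univ, ← coe_filter_univ, Set.ncard_coe_finset,
    Set.ncard_coe_finset, Set.ncard_coe_finset]
  have h2 : 2856960 ≤ (univ.filter fun w : Perm (Fin 10) =>
      ∃ S, IsST ed S ∧ Split ed S ∧ ∀ T, IsST ed T → ∑ e ∈ S, (w e : ℕ) ≤ ∑ e ∈ T, (w e : ℕ)).card :=
    h1 ▸ card_le_card (biUnion_subset.2 fun ⟨a, b, c⟩ hx w hw =>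
      mem_filter.2 ⟨mem_univ _, h2 a b c hx w hw⟩)
  have h3 : ((2856960 : ℕ) : ℚ) ≤ _ := Nat.cast_le.2 h2
  refine lt_of_lt_of_le ?_ (div_le_div_of_nonneg_right (by convert h3) (by positivity))
  have k1 := c1
  have k2 := c2
  rw [show (univ.filter fun S => IsST ed S ∧ Split ed S).card = 44 by convert k2,
    show (univ.filter fun S => IsST ed S).card = 56 by convert k1]
  norm_num [Nat.factorial]

end Pool.Agent.Results.MP_ddaf7c_pr.Grid
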